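import Mathlib
import Pool.Agent.H23.SE

set_option autoImplicit false

namespace Pool.Agent.Results.MP_743c94_lc.Yes

open Pool.Agent.H23

/-- Cantor space -/
abbrev Can := ℕ → Bool

/-- the initial segment of length `k` -/
def seg (p : Can) (k : ℕ) : List Bool := (List.range k).map p

/-- the standard pairing of two points -/
def pair (p q : Can) : Can := fun n => if n % 2 = 0 then p (n / 2) else q (n / 2)

/-- a Turing functional: computable and monotone in the finite oracle -/
def Functional (Φ : List Bool → ℕ → Option Bool) : Prop :=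
  Computable₂ Φ ∧ ∀ σ τ n v, σ <+: τ → Φ σ n = some v → Φ τ n = some v

/-- `Φ` maps `p` to `q` -/
def Computes (Φ : List Bool → ℕ → Option Bool) (p q : Can) : Prop :=
  ∀ n, ∃ k, Φ (seg p k) n = some (q n)

/-- a multivalued problem: its domain and the solutions of each instance -/
structure Problem where
  dom : Set Can
  sol : Can → Set Can

def Realizer (G : Can → Can) (g : Problem) : Prop := ∀ p ∈ g.dom, G p ∈ g.sol p

/-- Weihrauch reducibility -/
def WRed (f g : Problem) : Prop :=
  ∃ H K, Functional H ∧ Functional K ∧ ∀ G, Realizer G g → ∀ p ∈ f.dom,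
    ∃ x y, Computes K p x ∧ Computes H (pair p (G x)) y ∧ y ∈ f.sol p

def prod (f g : Problem) : Problem where
  dom := {z | ∃ p ∈ f.dom, ∃ q ∈ g.dom, z = pair p q}
  sol z := {w | ∃ a ∈ f.sol fun n => z (2 * n), ∃ b ∈ g.sol fun n => z (2 * n + 1), w = pair a b}

def NON : Problem where
  dom := Set.univ
  sol p := {q | ¬ TuringReducible (PFun.lift fun n => (q n).toNat) (PFun.lift fun n => (p n).toNat)}

def LLPO : Problem where
  dom := {p | ∀ m n, p m = true → p n = true → m = n}
  sol p := {r | ∃ i : Bool, r = (fun _ => i) ∧ ∀ n, p (2 * n + i.toNat) = false}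

def RT22 : Problem where
  dom := Set.univ
  sol c := {H | {n | H n = true}.Infinite ∧
    ∃ k, ∀ x y, x < y → H x = true → H y = true → c (Nat.pair x y) = k}

@[simp] theorem seg_length (p : Can) (k : ℕ) : (seg p k).length = k := by simp [seg]

theorem seg_getD (p : Can) {k i : ℕ} (h : i < k) : (seg p k).getD i false = p i := by
  simp [seg, h]

theorem seg_take (p : Can) {k j : ℕ} (h : j ≤ k) : (seg p k).take j = seg p j := by
  simp [seg, ← List.map_take, List.take_range, h]

def first (G : List Bool → ℕ → Option Bool) (σ : List Bool) (n m : ℕ) : Option Bool :=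
  Nat.rec none (fun k acc => bif acc.isSome then acc else G (σ.take k) n) m

theorem first_succ (G : List Bool → ℕ → Option Bool) (σ : List Bool) (n m : ℕ) :
    first G σ n (m + 1) =
      bif (first G σ n m).isSome then first G σ n m else G (σ.take m) n := rfl

theorem functional_of (G : List Bool → ℕ → Option Bool) (hG : Primrec fun x : List Bool × ℕ =>
    G x.1 x.2) : ∃ Φ, Functional Φ ∧ ∀ w y : Can, (∀ n k v, G (seg w k) n = some v → v = y n) →
      (∀ n, ∃ k, (G (seg w k) n).isSome = true) → Computes Φ w y := by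
  have mono : ∀ σ n m m' v, m ≤ m' → first G σ n m = some v → first G σ n m' = some v := by
    intro σ n m m' v h h1
    induction h with
    | refl => exact h1
    | step _ ih => rw [first_succ, ih]; rfl
  have cong : ∀ σ τ n m, σ <+: τ → m ≤ σ.length + 1 → first G σ n m = first G τ n m := by
    intro σ τ n m h hm
    induction m with
    | zero => rfl
    | succ m ih =>
      rw [first_succ, first_succ, ih (by omega)]
      obtain ⟨ρ, rfl⟩ := h
      rw [List.take_append_of_le_length (by omega)]
  refine ⟨fun σ n => first G σ n (σ.length + 1), ⟨Primrec.to_comp (show Primrec fun x :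
    List Bool × ℕ => first G x.1 x.2 (x.1.length + 1) from ?_), fun σ τ n v h h1 => ?_⟩,
    fun w y h1 h2 n => ?_⟩
  · have : Primrec fun x : (List Bool × ℕ) × ℕ × Option Bool => G (x.1.1.take x.2.1) x.1.2 :=
      hG.comp (show Primrec fun x : (List Bool × ℕ) × ℕ × Option Bool =>
        (x.1.1.take x.2.1, x.1.2) by fun_prop)
    unfold first
    fun_prop
  · beta_reduce at h1
    rw [cong σ τ n _ h le_rfl] at h1
    exact mono _ _ _ _ _ (by have := h.length_le; omega) h1
  · obtain ⟨k, hk⟩ := h2 n
    refine ⟨k, ?_⟩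
    have snd : ∀ m ≤ k + 1, ∀ v, first G (seg w k) n m = some v → v = y n := by
      intro m hm
      induction m with
      | zero => intro v h; simp [first] at h
      | succ m ih =>
        intro v h
        rw [first_succ] at h
        cases e : first G (seg w k) n m with
        | none => rw [e, seg_take _ (by omega)] at h; exact h1 _ _ _ h
        | some u => rw [e] at h; exact ih (by omega) v (e.trans h)
    have : (first G (seg w k) n (k + 1)).isSome = true := by
      rw [first_succ, seg_take _ le_rfl]
      cases e : (first G (seg w k) n k).isSome with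
      | true => exact e
      | false => exact hk
    obtain ⟨v, hv⟩ := Option.isSome_iff_exists.1 this
    simp only [seg_length]
    rw [hv, snd _ le_rfl v hv]

open Nat.Partrec (Code)

def V (τ : List ℕ) (y e x : ℕ) : Bool :=
  (List.range y).any fun n =>
    (Code.evaln y (Denumerable.ofNat Code e) (Encodable.encode (x, τ.take n))).isSome

def A (τ : List ℕ) (y e : ℕ) : List ℕ := (List.range y).filter (V τ y e)

def good (τ : List ℕ) (y B : ℕ) : Bool :=
  (List.range y).all fun e => Nat.blt (A τ y e).length (2 * e + 2) ||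
    ((A τ y e).any (fun x => B.testBit x) && (A τ y e).any fun x => !B.testBit x)

def sel (τ : List ℕ) (y : ℕ) : ℕ := ((List.range (2 ^ y)).filter (good τ y)).getD 0 0

theorem split (S : ℕ → Finset ℕ) (m : ℕ) : ∃ U B : Finset ℕ, B ⊆ U ∧ U.card ≤ 2 * m ∧
    ∀ e < m, 2 * e + 2 ≤ (S e).card → (∃ a ∈ S e, a ∈ U ∧ a ∉ B) ∧ ∃ b ∈ S e, b ∈ B := by
  induction m with
  | zero => exact ⟨∅, ∅, by simp, by simp, by simp⟩
  | succ m ih =>
    obtain ⟨U, B, h1, h2, h3⟩ := ih
    by_cases h : 2 * m + 2 ≤ (S m).card
    · have : 1 < (S m \ U).card := by have := Finset.le_card_sdiff U (S m); omega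
      obtain ⟨a, ha, b, hb, hab⟩ := Finset.one_lt_card.1 this
      rw [Finset.mem_sdiff] at ha hb
      refine ⟨insert a (insert b U), insert b B, ?_, ?_, fun e he hh => ?_⟩
      · exact (Finset.insert_subset_insert _ h1).trans (Finset.subset_insert _ _)
      · have := Finset.card_insert_le a (insert b U)
        have := Finset.card_insert_le b U
        omega
      · rcases Nat.lt_succ_iff_lt_or_eq.1 he with he | rfl
        · obtain ⟨⟨c, c1, c2, c3⟩, d, d1, d2⟩ := h3 e he hh
          refine ⟨⟨c, c1, by simp [c2], ?_⟩, d, d1, by simp [d2]⟩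
          simp only [Finset.mem_insert, not_or]
          exact ⟨fun e => hb.2 (e ▸ c2), c3⟩
        · refine ⟨⟨a, ha.1, by simp, ?_⟩, b, hb.1, by simp⟩
          simp only [Finset.mem_insert, not_or]
          exact ⟨hab, fun e => ha.2 (h1 e)⟩
    · refine ⟨U, B, h1, by omega, fun e he hh => h3 e ?_ hh⟩
      rcases Nat.lt_succ_iff_lt_or_eq.1 he with he | rfl
      · exact he
      · exact absurd hh h

theorem good_sel (τ : List ℕ) (y : ℕ) : good τ y (sel τ y) = true := by
  obtain ⟨U, B, -, -, h3⟩ := split (fun e => (A τ y e).toFinset) y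
  have hl : ∀ e x, x ∈ A τ y e → x < y := fun e x h =>
    List.mem_range.1 (List.mem_filter.1 h).1
  have : Nat.ofBits (fun i : Fin y => decide (i.1 ∈ B)) ∈
      (List.range (2 ^ y)).filter (good τ y) := by
    refine List.mem_filter.2 ⟨List.mem_range.2 (Nat.ofBits_lt_two_pow _), ?_⟩
    simp only [good, List.all_eq_true, List.mem_range, Bool.or_eq_true, Bool.and_eq_true,
      List.any_eq_true, Nat.blt_eq]
    intro e he
    refine or_iff_not_imp_left.2 fun h => ?_
    have nd : (A τ y e).Nodup := List.nodup_range.filter _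
    obtain ⟨⟨a, a1, -, a3⟩, b, b1, b2⟩ := h3 e he (by
      rw [List.toFinset_card_of_nodup nd]; omega)
    rw [List.mem_toFinset] at a1 b1
    exact ⟨⟨b, b1, by rw [Nat.testBit_ofBits_lt _ _ (hl _ _ b1)]; simpa⟩,
      a, a1, by rw [Nat.testBit_ofBits_lt _ _ (hl _ _ a1)]; simpa⟩
  unfold sel
  cases e : (List.range (2 ^ y)).filter (good τ y) with
  | nil => simp [e] at this
  | cons b l =>
    have : b ∈ (List.range (2 ^ y)).filter (good τ y) := by simp [e]
    exact (List.mem_filter.1 this).2

@[fun_prop] theorem prim_sel {α : Type} [Primcodable α] {f : α → List ℕ} {g : α → ℕ}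
    (hf : Primrec f) (hg : Primrec g) : Primrec fun a => sel (f a) (g a) := by
  have : Primrec fun x : List ℕ × ℕ => sel x.1 x.2 := by
    unfold sel good A V
    fun_prop
  exact this.comp (hf.pair hg)

/-- relativized Specker/Jockusch colouring -/
theorem specker (g : ℕ → ℕ) (h : Can) (hinf : {n | h n = true}.Infinite) (s : ℕ) (k : Bool)
    (hom : ∀ x y, s < x → x < y → h x = true → h y = true →
      (sel (TNF.pre g y) y).testBit x = k) :
    ¬ TuringReducible (PFun.lift fun n => (h n).toNat) (PFun.lift g) := by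
  intro H
  obtain ⟨W, h1, -, h3⟩ := Rel.se_of_tr H
  obtain ⟨e, he⟩ := Rel.exists_index (RE.re_and (RE.re_comp' h1
    (fun a : ℕ × List ℕ => ((a.1, 1), a.2)) (by fun_prop))
    (RE.re_prim (f := fun a : ℕ × List ℕ => Nat.blt s a.1) (by fun_prop)))
  have tk : ∀ y n, n < y → (TNF.pre g y).take n = TNF.pre g n := fun y n hn => by
    simp [TNF.pre, ← List.map_take, List.take_range, hn.le]
  have snd : ∀ y x, V (TNF.pre g y) y e x = true → h x = true ∧ s < x := by
    intro y x hv
    simp only [V, List.any_eq_true, List.mem_range] at hv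
    obtain ⟨n, hn, hv⟩ := hv
    obtain ⟨v, hv⟩ := Option.isSome_iff_exists.1 hv
    have := (he (x, (TNF.pre g y).take n)).2 (Part.dom_iff_mem.2 ⟨v, Code.evaln_sound hv⟩)
    rw [tk _ _ hn] at this
    have e1 := (h3 (x, 1)).2 ⟨n, this.1⟩
    refine ⟨?_, by simpa using this.2⟩
    cases e2 : h x <;> simp [e2] at e1 ⊢
  have cmp : ∀ x, h x = true → s < x → ∀ᶠ y in Filter.atTop, V (TNF.pre g y) y e x = true := by
    intro x hx hs
    obtain ⟨n, hn⟩ := (h3 (x, 1)).1 (by simp [hx])
    obtain ⟨v, hv⟩ := Part.dom_iff_mem.1 ((he (x, TNF.pre g n)).1 ⟨hn, by simpa using hs⟩)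
    obtain ⟨t, ht⟩ := Code.evaln_complete.1 hv
    filter_upwards [Filter.eventually_gt_atTop n, Filter.eventually_ge_atTop t] with y y1 y2
    simp only [V, List.any_eq_true, List.mem_range]
    refine ⟨n, y1, ?_⟩
    rw [tk _ _ y1]
    exact Option.isSome_iff_exists.2 ⟨v, Code.evaln_mono y2 ht⟩
  obtain ⟨F, F1, F2⟩ := (hinf.sdiff (Set.finite_le_nat s)).exists_subset_card_eq (2 * e + 2)
  have ev : ∀ᶠ y in Filter.atTop, ∀ x ∈ F, x < y ∧ V (TNF.pre g y) y e x = true :=
    (Filter.eventually_all_finset F).2 fun x hx => (Filter.eventually_gt_atTop x).and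
      (cmp x (F1 hx).1 (by simpa using (F1 hx).2))
  obtain ⟨y0, hy0⟩ := Filter.eventually_atTop.1 (ev.and (Filter.eventually_gt_atTop e))
  obtain ⟨y, hy, yy⟩ := hinf.exists_gt y0
  obtain ⟨y1, y2⟩ := hy0 y yy.le
  have := good_sel (TNF.pre g y) y
  simp only [good, List.all_eq_true, List.mem_range, Bool.or_eq_true, Bool.and_eq_true,
    List.any_eq_true, Nat.blt_eq] at this
  rcases this e y2 with h | ⟨⟨a, a1, a2⟩, b, b1, b2⟩
  · have : F ⊆ (A (TNF.pre g y) y e).toFinset := fun x hx => by
      simp only [A, List.mem_toFinset, List.mem_filter, List.mem_range]; exact y1 x hx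
    have := (Finset.card_le_card this).trans (List.toFinset_card_le _)
    omega
  · simp only [A, List.mem_filter, List.mem_range] at a1 b1
    have e1 := hom a y (snd _ _ a1.2).2 a1.1 (snd _ _ a1.2).1 hy
    have e2 := hom b y (snd _ _ b1.2).2 b1.1 (snd _ _ b1.2).1 hy
    rw [e1] at a2; rw [e2, a2] at b2; simp at b2

def seen (ρ : List Bool) (x y : ℕ) : Bool :=
  (List.range y).any fun s => ρ.getD (2 * s + 1) false && Nat.ble x s

def ev (ρ : List Bool) (y : ℕ) : Bool :=
  (List.range y).any fun s => ρ.getD (2 * s + 1) false && s % 2 == 0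

def F (ρ : List Bool) (x y : ℕ) : Bool :=
  bif seen ρ x y then ev ρ y
  else (sel ((List.range y).map fun i => (ρ.getD (2 * i) false).toNat) y).testBit x

def GK (σ : List Bool) (n : ℕ) : Option Bool :=
  bif Nat.ble (2 * n.unpair.2) σ.length then
    some (F (σ.take (2 * n.unpair.2)) n.unpair.1 n.unpair.2) else none

def lft (σ : List Bool) (k : ℕ) : List Bool := (List.range k).map fun i => σ.getD (2 * i) false

def GH (σ : List Bool) (n : ℕ) : Option Bool :=
  bif n % 2 == 0 then (bif Nat.blt (n + 1) σ.length then some (σ.getD (n + 1) false) else none)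
  else bif σ.getD (2 * (σ.length / 4) + 1) false &&
      (List.range (σ.length / 4)).any fun x => σ.getD (2 * x + 1) false then
    some (bif seen (lft σ (2 * (σ.length / 4))) 0 (σ.length / 4) then
      ev (lft σ (2 * (σ.length / 4))) (σ.length / 4)
      else (List.range (σ.length / 4)).any fun x => σ.getD (2 * x + 1) false &&
        F (lft σ (2 * (σ.length / 4))) x (σ.length / 4))
  else none

theorem pair_even (p q : Can) (n : ℕ) : pair p q (2 * n) = p n := by simp [pair]

theorem pair_odd (p q : Can) (n : ℕ) : pair p q (2 * n + 1) = q n := by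
  have : (2 * n + 1) / 2 = n := by omega
  simp [pair, this]

theorem seen_iff (p q : Can) (x y : ℕ) :
    seen (seg (pair p q) (2 * y)) x y = true ↔ ∃ s < y, q s = true ∧ x ≤ s := by
  simp only [seen, List.any_eq_true, List.mem_range, Bool.and_eq_true, Nat.ble_eq]
  exact exists_congr fun s => and_congr_right fun h => by rw [seg_getD _ (by omega), pair_odd]

theorem ev_eq (p q : Can) (hq : q ∈ LLPO.dom) {s y : ℕ} (h : s < y) (hs : q s = true) :
    ev (seg (pair p q) (2 * y)) y = (s % 2 == 0) := by
  rw [Bool.eq_iff_iff]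
  simp only [ev, List.any_eq_true, List.mem_range, Bool.and_eq_true]
  refine ⟨fun ⟨t, t1, t2, t3⟩ => ?_, fun e => ⟨s, h, ?_, e⟩⟩
  · rw [seg_getD _ (by omega), pair_odd] at t2
    rwa [hq s t hs t2]
  · rwa [seg_getD _ (by omega), pair_odd]

theorem result : WRed (prod NON LLPO) RT22 := by
  have pF : Primrec fun a : List Bool × ℕ × ℕ => F a.1 a.2.1 a.2.2 := by
    unfold F seen ev; fun_prop
  obtain ⟨K, K1, K2⟩ := functional_of GK (by
    have : Primrec fun a : List Bool × ℕ => F (a.1.take (2 * a.2.unpair.2)) a.2.unpair.1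
        a.2.unpair.2 := pF.comp (show Primrec fun a : List Bool × ℕ =>
          (a.1.take (2 * a.2.unpair.2), a.2.unpair.1, a.2.unpair.2) by fun_prop)
    unfold GK; fun_prop)
  obtain ⟨H, H1, H2⟩ := functional_of GH (by
    have : Primrec fun a : (List Bool × ℕ) × ℕ => F (lft a.1.1 (2 * (a.1.1.length / 4))) a.2
        (a.1.1.length / 4) := pF.comp (show Primrec fun a : (List Bool × ℕ) × ℕ =>
          (lft a.1.1 (2 * (a.1.1.length / 4)), a.2, a.1.1.length / 4) by unfold lft; fun_prop)
    have : Primrec fun a : List Bool × ℕ => (List.range (a.1.length / 4)).any fun x =>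
        a.1.getD (2 * x + 1) false && F (lft a.1 (2 * (a.1.length / 4))) x (a.1.length / 4) := by
      fun_prop
    unfold GH seen ev lft; fun_prop)
  have ble : ∀ a, Nat.ble a a = true := fun a => Nat.ble_eq ▸ le_rfl
  refine ⟨H, K, H1, K1, ?_⟩
  rintro G hG _ ⟨p, -, q, hq, rfl⟩
  set c : Can := fun n => F (seg (pair p q) (2 * n.unpair.2)) n.unpair.1 n.unpair.2 with hc
  obtain ⟨hinf, k, hk⟩ := hG c trivial
  set h := G c
  have hk' : ∀ x y, x < y → h x = true → h y = true → F (seg (pair p q) (2 * y)) x y = k :=
    fun x y a b d => by simpa [hc] using hk x y a b d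
  have key : ∀ s x, q s = true → x ≤ s → h x = true → k = (s % 2 == 0) := by
    intro s x hs hx hh
    obtain ⟨y, hy, yy⟩ := hinf.exists_gt s
    rw [← hk' x y (by omega) hh hy, F, (seen_iff _ _ _ _).2 ⟨s, yy, hs, hx⟩, ← ev_eq p q hq yy hs]
    rfl
  obtain ⟨i, i1, i2⟩ : ∃ i : Bool, (∀ s, q s = true → i = (s % 2 == 0)) ∧
      ((∀ s, q s = false) → i = k) := by
    by_cases e : ∃ s, q s = true
    · obtain ⟨s, hs⟩ := e
      exact ⟨s % 2 == 0, fun t ht => by rw [hq s t hs ht], fun e => by simp [e s] at hs⟩
    · exact ⟨k, fun s hs => absurd ⟨s, hs⟩ e, fun _ => rfl⟩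
  refine ⟨c, pair h fun _ => i, K2 _ _ (fun n m v e => ?_) fun n => ⟨2 * n.unpair.2,
      by simp [GK, ble]⟩,
    H2 _ _ (fun n m v e => ?_) fun n => ?_, h, ?_, fun _ => i, ⟨i, rfl, fun n => ?_⟩, rfl⟩
  · simp only [GK, seg_length] at e
    cases b : Nat.ble (2 * n.unpair.2) m with
    | false => simp [b] at e
    | true =>
      rw [b, seg_take _ (Nat.ble_eq ▸ b)] at e
      exact (Option.some.inj e).symm
  · simp only [GH, seg_length] at e
    rcases Nat.even_or_odd' n with ⟨j, rfl | rfl⟩
    · rw [pair_even]
      cases b : Nat.blt (2 * j + 1) m with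
      | true =>
        rw [b, seg_getD _ (Nat.blt_eq ▸ b), pair_odd] at e
        simp at e
        exact e.symm
      | false => simp [b] at e
    · rw [pair_odd]
      have e0 : ((2 * j + 1) % 2 == 0) = false := by simp
      rw [e0, cond_false] at e
      set y := m / 4 with hy
      have l : lft (seg (pair (pair p q) h) m) (2 * y) = seg (pair p q) (2 * y) :=
        List.map_congr_left fun i hi => by
          rw [seg_getD _ (by have := List.mem_range.1 hi; omega), pair_even]
      rw [l] at e
      have g : ∀ x < y, (seg (pair (pair p q) h) m).getD (2 * x + 1) false = h x :=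
        fun x hx => by rw [seg_getD _ (by omega), pair_odd]
      generalize hb : ((seg (pair (pair p q) h) m).getD (2 * y + 1) false &&
        (List.range y).any fun x => (seg (pair (pair p q) h) m).getD (2 * x + 1) false) = b at e
      cases b with
      | false => simp at e
      | true =>
        simp only [Bool.and_eq_true, List.any_eq_true, List.mem_range] at hb
        obtain ⟨b1, x, x1, x2⟩ := hb
        rw [seg_getD _ (by omega), pair_odd] at b1
        rw [g x x1] at x2
        rw [cond_true, Option.some.injEq] at e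
        rw [← e]
        cases b : seen (seg (pair p q) (2 * y)) 0 y with
        | true =>
          obtain ⟨s, s1, s2, -⟩ := (seen_iff _ _ _ _).1 b
          rw [cond_true, ev_eq p q hq s1 s2, i1 s s2]
        | false =>
          have : i = k := by
            by_cases e : ∃ s, q s = true
            · obtain ⟨s, hs⟩ := e
              have : y ≤ s := by
                by_contra hh
                rw [(seen_iff _ _ _ _).2 ⟨s, by omega, hs, by omega⟩] at b
                simp at b
              rw [i1 s hs, key s x hs (by omega) x2]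
            · exact i2 fun s => by simpa using fun hs => e ⟨s, hs⟩
          rw [cond_false, this, Bool.eq_iff_iff]
          simp only [List.any_eq_true, List.mem_range, Bool.and_eq_true]
          refine ⟨fun ⟨z, z1, z2, z3⟩ => ?_, fun e => ⟨x, x1, by rw [g x x1, x2], ?_⟩⟩
          · rw [g z z1] at z2
            rw [← hk' z y z1 z2 b1, z3]
          · rw [hk' x y x1 x2 b1, e]
  · rcases Nat.even_or_odd' n with ⟨j, rfl | rfl⟩
    · exact ⟨2 * j + 2, by simp [GH, Nat.blt, ble]⟩
    · obtain ⟨x, hx⟩ := hinf.nonempty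
      obtain ⟨y, hy, yy⟩ := hinf.exists_gt x
      refine ⟨4 * y, ?_⟩
      have e0 : ((2 * j + 1) % 2 == 0) = false := by simp
      have e1 : 4 * y / 4 = y := by omega
      have : ((seg (pair (pair p q) h) (4 * y)).getD (2 * y + 1) false &&
          (List.range y).any fun x => (seg (pair (pair p q) h) (4 * y)).getD (2 * x + 1) false) =
          true := by
        simp only [Bool.and_eq_true, List.any_eq_true, List.mem_range]
        exact ⟨by rw [seg_getD _ (by omega), pair_odd]; exact hy, x, yy,
          by rw [seg_getD _ (by omega), pair_odd]; exact hx⟩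
      unfold GH
      rw [seg_length, e0, e1, this]
      rfl
  · obtain ⟨s, hs⟩ : ∃ s, ∀ t, q t = true → t ≤ s := by
      by_cases e : ∃ s, q s = true
      · obtain ⟨s, hs⟩ := e
        exact ⟨s, fun t ht => (hq t s ht hs).le⟩
      · exact ⟨0, fun t ht => absurd ⟨t, ht⟩ e⟩
    simp only [NON, pair_even, Set.mem_ofPred_eq]
    refine specker _ h hinf s k fun x y x1 x2 x3 x4 => ?_
    have : seen (seg (pair p q) (2 * y)) x y = false := by
      rw [← Bool.not_eq_true, seen_iff]
      rintro ⟨t, -, t2, t3⟩
      have := hs t t2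
      omega
    rw [← hk' x y x2 x3 x4, F, this, cond_false]
    congr 2
    exact List.map_congr_left fun i hi => by
      rw [seg_getD _ (by have := List.mem_range.1 hi; omega), pair_even]
  · simp only [pair_odd]
    by_contra e
    rw [Bool.not_eq_false] at e
    have := i1 _ e
    cases i <;> simp [Nat.add_mod] at this

end Pool.Agent.Results.MP_743c94_lc.Yes
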